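import Pool.Agent.Work.MP_88b7aa_gt.D.C459.M0

/-! The class is done. -/

set_option autoImplicit false

namespace Pool.Agent.Work.MP_88b7aa_gt.D.C459

open Pool.Agent.Work.MP_88b7aa_gt.PQ
open Pool.Agent.Work.MP_88b7aa_gt.Kc

theorem g0 : CGood (KS (.ex 4) (.ex 5) (.iv 9 0)) H.k ⟨199032864766430, 0, 0, 0, 0, 8⟩ ⟨227718039650213, 0, 0, 0, 0, 8⟩ ⟨272953761595392, 0, 8521215115264, 0, 0, 0⟩ ⟨0, 0, 0, 0, 0, 0⟩ :=
  mC_good H_ok M0.k LB.nil LC.nil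

theorem done : Done (KS (.ex 4) (.ex 5) (.iv 9 0)) := fin (by decide +kernel) g0

end Pool.Agent.Work.MP_88b7aa_gt.D.C459
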